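import Pool.Agent.H2.ScarfDefs

namespace Pool.Agent.Results.MP_0a8151_al.NotScarf

open MvPolynomial Pool.Agent.H2.Scarf

section general
variable {k : Type} [Field k] {V : Type} {N : ℕ} (g : Fin N → (V →₀ ℕ)) (m : V →₀ ℕ)

noncomputable def E (s : Finset (Fin N)) : Finset (Fin N) →₀ MvPolynomial V k :=
  Finsupp.single s (monomial (m - lab g s) 1)

noncomputable def o (u v : Fin N) : MvPolynomial V k := if v < u then -1 else 1

lemma lab_mono {s t : Finset (Fin N)} (h : s ⊆ t) : lab g s ≤ lab g t := Finset.sup_mono h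

lemma dif_E (s : Finset (Fin N)) (h : lab g s ≤ m) :
    dif k g (E g m s) = ∑ v ∈ s, ((-1 : MvPolynomial V k) ^ (s.filter (· < v)).card) •
      E g m (s.erase v) := by
  rw [E, dif, Finsupp.linearCombination_single, Finset.smul_sum]
  refine Finset.sum_congr rfl fun v _ => ?_
  rw [E, Finsupp.smul_single, Finsupp.smul_single, smul_eq_mul, smul_eq_mul, mul_left_comm,
    monomial_mul, mul_one, tsub_add_tsub_cancel h (lab_mono g (Finset.erase_subset _ _))]

lemma oo (u v : Fin N) : (o u v : MvPolynomial V k) * o u v = 1 := by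
  unfold o; split_ifs <;> simp

lemma o_swap {u v : Fin N} (h : u ≠ v) : (o v u : MvPolynomial V k) = - o u v := by
  unfold o
  rcases lt_or_gt_of_ne h with h1 | h1
  · rw [if_pos h1, if_neg (not_lt.2 h1.le)]
  · rw [if_neg (not_lt.2 h1.le), if_pos h1, neg_neg]

lemma sgn3 {a b c : Fin N} (hab : a ≠ b) (hac : a ≠ c) (hbc : b ≠ c) :
    (-1 : MvPolynomial V k) ^ (({a, b, c} : Finset (Fin N)).filter (· < a)).card
      = o a b * o a c := by
  unfold o
  rw [Finset.filter_insert, if_neg (lt_irrefl a), Finset.filter_insert, Finset.filter_singleton]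
  split_ifs <;> simp [hbc]

noncomputable def T (a b c : Fin N) : Finset (Fin N) →₀ MvPolynomial V k :=
  (o a b * o a c * o b c : MvPolynomial V k) • E g m {a, b, c}

noncomputable def G (a b : Fin N) : Finset (Fin N) →₀ MvPolynomial V k :=
  (o a b : MvPolynomial V k) • E g m {a, b}

lemma dif_T {a b c : Fin N} (hab : a ≠ b) (hac : a ≠ c) (hbc : b ≠ c)
    (h : lab g {a, b, c} ≤ m) :
    dif k g (T g m a b c) = G g m b c - G g m a c + G g m a b := by
  have e1 : ({a, b, c} : Finset (Fin N)).erase a = {b, c} := by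
    ext x; simp only [Finset.mem_erase, Finset.mem_insert, Finset.mem_singleton]; grind
  have e2 : ({a, b, c} : Finset (Fin N)).erase b = {a, c} := by
    ext x; simp only [Finset.mem_erase, Finset.mem_insert, Finset.mem_singleton]; grind
  have e3 : ({a, b, c} : Finset (Fin N)).erase c = {a, b} := by
    ext x; simp only [Finset.mem_erase, Finset.mem_insert, Finset.mem_singleton]; grind
  have s1 := sgn3 (k := k) (V := V) hab hac hbc
  have s2 := sgn3 (k := k) (V := V) hab.symm hbc hac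
  have s3 := sgn3 (k := k) (V := V) hac.symm hbc.symm hab
  rw [show ({b, a, c} : Finset (Fin N)) = {a, b, c} from Finset.insert_comm _ _ _,
    o_swap hab] at s2
  rw [show ({c, a, b} : Finset (Fin N)) = {a, b, c} by
    ext x; simp only [Finset.mem_insert, Finset.mem_singleton]; grind,
    o_swap hac, o_swap hbc] at s3
  rw [T, map_smul, dif_E g m _ h, Finset.sum_insert (by simp [hab, hac]),
    Finset.sum_insert (by simp [hbc]), Finset.sum_singleton, e1, e2, e3, s1, s2, s3,
    smul_add, smul_add, smul_smul, smul_smul, smul_smul, G, G, G]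
  have h1 := oo (k := k) (V := V) a b
  have h2 := oo (k := k) (V := V) a c
  have h3 := oo (k := k) (V := V) b c
  have k1 : (o a b * o a c * o b c * (o a b * o a c) : MvPolynomial V k) = o b c := by
    linear_combination (o a c * o a c * o b c) * h1 + (o b c) * h2
  have k2 : (o a b * o a c * o b c * (-o a b * o b c) : MvPolynomial V k) = - o a c := by
    linear_combination (- o b c * o b c * o a c) * h1 - (o a c) * h3
  have k3 : (o a b * o a c * o b c * (-o a c * -o b c) : MvPolynomial V k) = o a b := by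
    linear_combination (o b c * o b c * o a b) * h2 + (o a b) * h3
  rw [k1, k2, k3, neg_smul]
  abel

/-- no boundary -/
lemma coeff_dif (s : Finset (Fin N)) (c : Finset (Fin N) →₀ MvPolynomial V k)
    (hs : lab g s ≤ m)
    (h : ∀ t ∈ c.support, ∀ v ∈ t, t.erase v = s → ¬ lab g t ≤ m) :
    coeff (m - lab g s) (dif k g c s) = 0 := by
  classical
  rw [dif, Finsupp.linearCombination_apply, Finsupp.sum, Finsupp.finsetSum_apply, coeff_sum]
  refine Finset.sum_eq_zero fun t ht => ?_
  rw [Finsupp.smul_apply, Finsupp.finsetSum_apply, smul_eq_mul, Finset.mul_sum, coeff_sum]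
  refine Finset.sum_eq_zero fun v hv => ?_
  rw [Finsupp.single_apply]
  split_ifs with he
  · rw [← mul_assoc, coeff_mul_monomial', if_neg]
    intro hle
    apply h t ht v hv he
    rw [he] at hle
    have h1 : lab g s ≤ lab g t := by rw [← he]; exact lab_mono g (Finset.erase_subset _ _)
    exact (tsub_le_tsub_iff_right hs).1 hle
  · simp

end general

def P : Fin 5 → Fin 6 → ℕ :=
  ![![0, 1, 1, 1, 1, 1], ![0, 2, 1, 0, 1, 1], ![0, 2, 1, 1, 0, 1], ![0, 3, 1, 0, 0, 1],
    ![1, 0, 0, 2, 2, 0]]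

lemma P_sum : ∀ i, ∑ j, P i j = 5 := by decide

def val (i : Fin 5) (A : Finset (Fin 6)) : ℕ := ∑ j ∈ A, P i j

lemma genExp_apply {q r : ℕ} (a : Gen q r) (A : Var q) : genExp a A = ∑ j ∈ A.1, a.1 j := by
  classical
  have h : ∀ i : Fin q, epsExp i A = if i ∈ A.1 then 1 else 0 := by
    intro i
    rw [epsExp, Finsupp.finsetSum_apply]
    simp only [Finsupp.single_apply]
    rw [Finset.sum_ite_eq']
    simp
  rw [genExp, Finsupp.finsetSum_apply]
  simp [h]

section conc
variable {N : ℕ} (e : Fin N ≃ Gen 6 5)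

def p (i : Fin 5) : Fin N := e.symm ⟨P i, P_sum i⟩

lemma P_inj : Function.Injective P := by decide

lemma p_inj : Function.Injective (p e) := fun i j h =>
  P_inj (congrArg Subtype.val (e.symm.injective h))

noncomputable abbrev gg : Fin N → (Var 6 →₀ ℕ) := fun i => genExp (e i)

lemma lab_apply (s : Finset (Fin N)) (A : Var 6) : lab (gg e) s A = s.sup fun i => gg e i A := by
  classical
  induction s using Finset.induction_on with
  | empty => rfl
  | insert a s _ ih =>
    rw [Finset.sup_insert, ← ih, lab, Finset.sup_insert, Finsupp.sup_apply]; rfl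

lemma gg_p (i : Fin 5) (A : Var 6) : gg e (p e i) A = val i A.1 := by
  simp [gg, p, genExp_apply, val]

lemma lab_img (T : Finset (Fin 5)) (A : Var 6) :
    lab (gg e) (T.image (p e)) A = T.sup fun i => val i A.1 := by
  rw [lab_apply, Finset.sup_image]
  exact Finset.sup_congr rfl fun i _ => gg_p e i A

noncomputable abbrev mm : Var 6 →₀ ℕ := lab (gg e) (Finset.univ.image (p e))

lemma five (w : Fin N) (h : gg e w ≤ mm e) : ∃ i, w = p e i := by
  have hA : ∀ A : Finset (Fin 6), A.Nonempty →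
      ∑ j ∈ A, (e w).1 j ≤ Finset.univ.sup fun i => val i A := by
    intro A hA
    have := h ⟨A, hA⟩
    rwa [lab_img, genExp_apply] at this
  have hs := (e w).2
  have key : ∃ i, (e w).1 = P i := by
    generalize (e w).1 = a at hA hs
    have h1 := (hA {0, 2} (by decide)).trans (show _ ≤ 1 by decide)
    have h2 := (hA {1, 3, 4, 5} (by decide)).trans (show _ ≤ 4 by decide)
    have h3 := (hA {0, 5} (by decide)).trans (show _ ≤ 1 by decide)
    have h4 := (hA {1, 2, 3, 4} (by decide)).trans (show _ ≤ 4 by decide)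
    have h5 := (hA {0, 1, 3} (by decide)).trans (show _ ≤ 3 by decide)
    have h6 := (hA {2, 4} (by decide)).trans (show _ ≤ 2 by decide)
    have h7 := (hA {2, 3} (by decide)).trans (show _ ≤ 2 by decide)
    have h8 := (hA {0, 1, 4} (by decide)).trans (show _ ≤ 3 by decide)
    simp only [Fin.sum_univ_six] at hs
    simp at h1 h2 h3 h4 h5 h6 h7 h8
    have : (a 0 = 0 ∧ a 1 = 1 ∧ a 2 = 1 ∧ a 3 = 1 ∧ a 4 = 1 ∧ a 5 = 1) ∨
        (a 0 = 0 ∧ a 1 = 2 ∧ a 2 = 1 ∧ a 3 = 0 ∧ a 4 = 1 ∧ a 5 = 1) ∨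
        (a 0 = 0 ∧ a 1 = 2 ∧ a 2 = 1 ∧ a 3 = 1 ∧ a 4 = 0 ∧ a 5 = 1) ∨
        (a 0 = 0 ∧ a 1 = 3 ∧ a 2 = 1 ∧ a 3 = 0 ∧ a 4 = 0 ∧ a 5 = 1) ∨
        (a 0 = 1 ∧ a 1 = 0 ∧ a 2 = 0 ∧ a 3 = 2 ∧ a 4 = 2 ∧ a 5 = 0) := by omega
    rcases this with h | h | h | h | h
    · exact ⟨0, by funext j; fin_cases j <;> simp [P, h]⟩
    · exact ⟨1, by funext j; fin_cases j <;> simp [P, h]⟩
    · exact ⟨2, by funext j; fin_cases j <;> simp [P, h]⟩
    · exact ⟨3, by funext j; fin_cases j <;> simp [P, h]⟩
    · exact ⟨4, by funext j; fin_cases j <;> simp [P, h]⟩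
  obtain ⟨i, hi⟩ := key
  exact ⟨i, by rw [p, Equiv.eq_symm_apply]; exact Subtype.ext hi⟩

lemma img_le (T : Finset (Fin 5)) : lab (gg e) (T.image (p e)) ≤ mm e :=
  lab_mono _ (Finset.image_subset_image (Finset.subset_univ _))

lemma sub_img (t : Finset (Fin N)) (h : lab (gg e) t ≤ mm e) : ∃ T : Finset (Fin 5), t = T.image (p e) := by
  refine ⟨Finset.univ.filter fun i => p e i ∈ t, ?_⟩
  ext w
  simp only [Finset.mem_image, Finset.mem_filter, Finset.mem_univ, true_and]
  constructor
  · intro hw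
    obtain ⟨i, rfl⟩ := five e w ((Finset.le_sup (f := gg e) hw).trans h)
    exact ⟨i, hw, rfl⟩
  · rintro ⟨i, hi, rfl⟩; exact hi

def Good (T : Finset (Fin 5)) : Prop :=
  ∀ U : Finset (Fin 5), (∀ A : Finset (Fin 6), A.Nonempty →
    (U.sup fun i => val i A) = T.sup fun i => val i A) → U = T

instance (T : Finset (Fin 5)) : Decidable (Good T) := by unfold Good; infer_instance

lemma scarf_iff (T : Finset (Fin 5)) : IsScarf (gg e) (T.image (p e)) ↔ Good T := by
  constructor
  · intro h U hU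
    apply Finset.image_injective (p_inj e)
    apply h
    ext A
    rw [lab_img, lab_img, hU A.1 A.2]
  · intro h t ht
    obtain ⟨U, rfl⟩ := sub_img e t (ht ▸ img_le e T)
    rw [h U fun A hA => by rw [← lab_img e U ⟨A, hA⟩, ← lab_img e T ⟨A, hA⟩, ht]]

lemma good6 : Good {0, 1, 2} ∧ Good {0, 2, 4} ∧ Good {0, 1, 4} ∧ Good {3, 1, 2} ∧
    Good {3, 2, 4} ∧ Good {3, 1, 4} := by decide +kernel

lemma bad4 : ∀ T : Finset (Fin 5), T.card = 4 → ¬ Good T := by decide +kernel

lemma img3 (a b c : Fin 5) :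
    ({p e a, p e b, p e c} : Finset (Fin N)) = ({a, b, c} : Finset (Fin 5)).image (p e) := by
  simp

lemma T_mem (k : Type) [Field k] (a b c : Fin 5) (hG : Good {a, b, c})
    (hc : ({a, b, c} : Finset (Fin 5)).card = 3) :
    T (gg e) (mm e) (p e a) (p e b) (p e c) ∈
      chains k (V := Var 6) {s | IsScarf (gg e) s} 3 := by
  refine Submodule.smul_mem _ _ (Finsupp.single_mem_supported _ _ ⟨?_, ?_⟩)
  · rw [img3]; exact (scarf_iff e _).2 hG
  · rw [img3, Finset.card_image_of_injective _ (p_inj e), hc]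

lemma T_dif (k : Type) [Field k] (a b c : Fin 5) (hab : a ≠ b) (hac : a ≠ c) (hbc : b ≠ c) :
    dif k (gg e) (T (gg e) (mm e) (p e a) (p e b) (p e c)) =
      G (gg e) (mm e) (p e b) (p e c) - G (gg e) (mm e) (p e a) (p e c) +
        G (gg e) (mm e) (p e a) (p e b) :=
  dif_T _ _ ((p_inj e).ne hab) ((p_inj e).ne hac) ((p_inj e).ne hbc)
    (by rw [img3]; exact img_le e _)

lemma T_ne (k : Type) [Field k] (a b c : Fin 5) (h : ({a, b, c} : Finset (Fin 5)) ≠ {0, 1, 2}) :
    (T (gg e) (mm e) (p e a) (p e b) (p e c) : _ →₀ MvPolynomial (Var 6) k)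
      {p e 0, p e 1, p e 2} = 0 := by
  rw [T, E, Finsupp.smul_apply, Finsupp.single_eq_of_ne', smul_zero]
  rw [img3, img3]
  exact (Finset.image_injective (p_inj e)).ne h

end conc

theorem main (k : Type) [Field k] (N : ℕ) (e : Fin N ≃ Gen 6 5) :
    ¬ Exact k (fun i => genExp (e i)) {s | IsScarf (fun i => genExp (e i)) s} := by
  intro h
  obtain ⟨g1, g2, g3, g4, g5, g6⟩ := good6
  set t : Fin 5 → Fin 5 → Fin 5 → (Finset (Fin N) →₀ MvPolynomial (Var 6) k) :=
    fun a b c => T (gg e) (mm e) (p e a) (p e b) (p e c) with ht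
  obtain ⟨c', hc', hd⟩ := h 3 (by norm_num)
    (t 0 1 2 + t 0 2 4 - t 0 1 4 - (t 3 1 2 + t 3 2 4 - t 3 1 4))
    (Submodule.sub_mem _ (Submodule.sub_mem _ (Submodule.add_mem _
      (T_mem e k _ _ _ g1 (by decide)) (T_mem e k _ _ _ g2 (by decide)))
      (T_mem e k _ _ _ g3 (by decide))) (Submodule.sub_mem _ (Submodule.add_mem _
      (T_mem e k _ _ _ g4 (by decide)) (T_mem e k _ _ _ g5 (by decide)))
      (T_mem e k _ _ _ g6 (by decide))))
    (by
      simp only [map_sub, map_add, ht]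
      rw [T_dif e k 0 1 2 (by decide) (by decide) (by decide),
        T_dif e k 0 2 4 (by decide) (by decide) (by decide),
        T_dif e k 0 1 4 (by decide) (by decide) (by decide),
        T_dif e k 3 1 2 (by decide) (by decide) (by decide),
        T_dif e k 3 2 4 (by decide) (by decide) (by decide),
        T_dif e k 3 1 4 (by decide) (by decide) (by decide)]
      abel)
  have h0 := coeff_dif (gg e) (mm e) {p e 0, p e 1, p e 2} c'
    (by rw [img3]; exact img_le e _) (by
      intro s hs v _ _ hle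
      obtain ⟨U, rfl⟩ := sub_img e s hle
      obtain ⟨h1, h2⟩ := hc' hs
      rw [Finset.card_image_of_injective _ (p_inj e)] at h2
      exact bad4 U h2 ((scarf_iff e U).1 h1))
  rw [hd] at h0
  simp only [Finsupp.sub_apply, Finsupp.add_apply, ht] at h0
  rw [T_ne e k 0 2 4 (by decide), T_ne e k 0 1 4 (by decide), T_ne e k 3 1 2 (by decide),
    T_ne e k 3 2 4 (by decide), T_ne e k 3 1 4 (by decide), T, E, Finsupp.smul_apply,
    Finsupp.single_eq_same] at h0
  unfold o at h0
  split_ifs at h0 <;> simp at h0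

theorem result (k : Type) [Field k] :
    (∃ N : ℕ, Nonempty (Fin N ≃ Gen 6 5)) ∧ ∀ (N : ℕ) (e : Fin N ≃ Gen 6 5),
      ¬ Exact k (fun i => genExp (e i)) {s | IsScarf (fun i => genExp (e i)) s} := by
  refine ⟨?_, main k⟩
  have : Finite (Gen 6 5) :=
    (Set.Finite.subset (Finset.Nat.antidiagonalTuple 6 5).finite_toSet
      (fun a (h : ∑ i, a i = 5) => Finset.mem_coe.2
        (Finset.Nat.mem_antidiagonalTuple.2 h))).to_subtype
  exact ⟨_, ⟨(Finite.equivFin _).symm⟩⟩

end Pool.Agent.Results.MP_0a8151_al.NotScarf
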